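import Pool.Agent.P8H57.UL.Base

/-!
# Project UL: the situation `Sit`: fixed elements, Frobenius, and an element of trace one
-/

set_option autoImplicit false

open WeierstrassCurve IsLocalRing

namespace Pool.Agent.P8H57.UL

open Pool.Agent.P8H17.UL

section fixed

variable {Ω : Type} [NormedField Ω] {G : Subgroup (RingAut Ω)}

/-- the automorphism as a homomorphism of rings -/
def ap (σ : G) : Ω →+* Ω := (((σ : RingAut Ω) : Ω ≃+* Ω) : Ω →+* Ω)

lemma ap_apply (σ : G) (x : Ω) : ap σ x = (σ : RingAut Ω) x := rfl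

lemma ap_mul (σ τ : G) (x : Ω) : ap (σ * τ) x = ap σ (ap τ x) := rfl

lemma ap_one (x : Ω) : ap (1 : G) x = x := rfl

/-- the elements fixed by the subgroup `N` -/
def KN (N : Subgroup G) : Subfield Ω where
  carrier := {x | ∀ σ ∈ N, (σ : RingAut Ω) x = x}
  mul_mem' := fun {x y} hx hy σ hσ => by rw [map_mul, hx σ hσ, hy σ hσ]
  one_mem' := fun σ _ => map_one _
  add_mem' := fun {x y} hx hy σ hσ => by rw [map_add, hx σ hσ, hy σ hσ]
  zero_mem' := fun σ _ => map_zero _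
  neg_mem' := fun {x} hx σ hσ => by rw [map_neg, hx σ hσ]
  inv_mem' := fun x hx σ hσ => by rw [map_inv₀, hx σ hσ]

lemma mem_KN (N : Subgroup G) (x : Ω) : x ∈ KN N ↔ ∀ σ ∈ N, (σ : RingAut Ω) x = x := Iff.rfl

variable {N : Subgroup G} {φ : G} {p m Q : ℕ}

lemma KN_ap (hN : N.Normal) (τ : G) {x : Ω} (hx : x ∈ KN N) : ap τ x ∈ KN N := by
  intro σ hσ
  have h : τ⁻¹ * σ * τ ∈ N := by
    have := hN.conj_mem σ hσ τ⁻¹
    rwa [inv_inv] at this
  have h2 : ap (τ * (τ⁻¹ * σ * τ)) x = ap τ x := by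
    rw [ap_mul]
    exact congrArg _ (hx _ h)
  have h3 : τ * (τ⁻¹ * σ * τ) = σ * τ := by group
  rw [h3, ap_mul] at h2
  exact h2

lemma ap_pow_succ (i : ℕ) (x : Ω) : ap (φ ^ (i + 1)) x = ap φ (ap (φ ^ i) x) := by
  rw [pow_succ', ap_mul]

/-- elements fixed by `N` and by `φ` are fixed by the whole group -/
lemma fix_all (hg : ∀ τ : G, ∃ i : ℕ, (φ ^ i)⁻¹ * τ ∈ N) {x : Ω} (hx : x ∈ KN N)
    (hφ : ap φ x = x) (τ : G) : (τ : RingAut Ω) x = x := by
  obtain ⟨i, hi⟩ := hg τ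
  have h1 : ∀ j : ℕ, ap (φ ^ j) x = x := by
    intro j
    induction j with
    | zero => rw [pow_zero, ap_one]
    | succ j ih => rw [ap_pow_succ, ih, hφ]
  have h2 : ap (φ ^ i * ((φ ^ i)⁻¹ * τ)) x = x := by
    rw [ap_mul]
    have : ap ((φ ^ i)⁻¹ * τ) x = x := hx _ hi
    rw [this, h1]
  rw [mul_inv_cancel_left] at h2
  exact h2

/-- values of the norm on the fixed elements -/
lemma disc {π : Ω} (h0 : 0 < ‖π‖) (h1 : ‖π‖ < 1) (hπ : π ∈ KN N)
    (hd : ∀ x : Ω, (∀ σ ∈ N, (σ : RingAut Ω) x = x) → ‖x‖ < 1 → ‖x‖ ≤ ‖π‖)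
    {v : Ω} (hv : v ∈ KN N) (hv0 : v ≠ 0) (hv1 : ‖v‖ ≤ 1) : ∃ n : ℕ, ‖v‖ = ‖π‖ ^ n := by
  classical
  have hex : ∃ n : ℕ, ‖π‖ ^ n < ‖v‖ := exists_pow_lt_of_lt_one (norm_pos_iff.2 hv0) h1
  have hn := Nat.find_spec hex
  have hmin : ∀ k, k < Nat.find hex → ¬ ‖π‖ ^ k < ‖v‖ := fun k hk => Nat.find_min hex hk
  generalize Nat.find hex = n at hn hmin
  rcases Nat.eq_zero_or_pos n with h | h
  · rw [h, pow_zero] at hn
    exact absurd hv1 (not_le.2 hn)
  · obtain ⟨k, rfl⟩ : ∃ k, n = k + 1 := ⟨n - 1, by omega⟩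
    have hk := hmin k (by omega)
    rw [not_lt] at hk
    refine ⟨k, le_antisymm hk ?_⟩
    by_contra hlt
    rw [not_le] at hlt
    have hpk : 0 < ‖π‖ ^ k := pow_pos h0 k
    have hw : ‖v / π ^ k‖ < 1 := by
      rw [norm_div, norm_pow, div_lt_one hpk]
      exact hlt
    have hw2 := hd (v / π ^ k) ((KN N).div_mem hv ((KN N).pow_mem hπ k)) hw
    rw [norm_div, norm_pow, div_le_iff₀ hpk, ← pow_succ'] at hw2
    exact absurd hn (not_lt.2 hw2)

end fixed

section frob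

variable {Ω : Type} [NormedField Ω] (na : ∀ x y : Ω, ‖x + y‖ ≤ max ‖x‖ ‖y‖)

/-- the characteristic of the residue field -/
lemma charP_res {l : ℕ} (hl : l.Prime) (h : ‖(l : Ω)‖ < 1) : CharP (ResidueField (OO na)) l := by
  rw [CharP.charP_iff_prime_eq_zero hl]
  have h1 : residue (OO na) (l : OO na) = 0 := by
    rw [residue_eq_zero]
    exact h
  rwa [map_natCast] at h1

/-- the power map on the residue field -/
lemma exists_frob {Q : ℕ} (h : ∃ l f : ℕ, l.Prime ∧ Q = l ^ f ∧ ‖(l : Ω)‖ < 1) :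
    ∃ F : ResidueField (OO na) →+* ResidueField (OO na), ∀ x, F x = x ^ Q := by
  obtain ⟨l, f, hl, rfl, hn⟩ := h
  have := charP_res na hl hn
  have := Fact.mk hl
  have := ExpChar.prime (R := ResidueField (OO na)) hl
  exact ⟨iterateFrobenius (ResidueField (OO na)) l f, fun x => iterateFrobenius_def _ _ _⟩

variable {G : Subgroup (RingAut Ω)} {N : Subgroup G} {φ : G} {p m Q : ℕ}

/-- integral elements of the fixed field -/
lemma ap_mem (hS : Sit G N φ p m Q) (τ : G) {x : Ω} (hx : x ∈ OO na) : ap τ x ∈ OO na := by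
  have h := hS.iso τ x
  show ‖ap τ x‖ ≤ 1
  rw [ap_apply, h]
  exact hx

/-- the residue of the image under `φ` -/
lemma residue_ap (hS : Sit G N φ p m Q) (x : OO na) (hx : (x : Ω) ∈ KN N) :
    residue (OO na) ⟨ap φ x, ap_mem na hS φ x.2⟩ = residue (OO na) x ^ Q := by
  rw [← map_pow, residue_eq]
  exact hS.frob x x.2 (hS.resfix x x.2 hx)

/-- the residue of the image under `φ ^ i` -/
lemma residue_ap_pow (hS : Sit G N φ p m Q) (x : OO na) (hx : (x : Ω) ∈ KN N) (i : ℕ) :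
    residue (OO na) ⟨ap (φ ^ i) x, ap_mem na hS (φ ^ i) x.2⟩ = residue (OO na) x ^ Q ^ i := by
  induction i with
  | zero =>
    have h : residue (OO na) x ^ Q ^ 0 = residue (OO na) x := by rw [pow_zero, pow_one]
    rw [h]
    rfl
  | succ i ih =>
    have h := residue_ap na hS ⟨ap (φ ^ i) x, ap_mem na hS (φ ^ i) x.2⟩ (KN_ap hS.nor _ hx)
    rw [ih, ← pow_mul, ← pow_succ] at h
    rw [← h]
    congr 1
    exact Subtype.ext (ap_pow_succ i (x : Ω))

/-- a fixed integral element has a residue in the field with `Q ^ (p ^ m)` elements -/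
lemma residue_fix (hS : Sit G N φ p m Q) (x : OO na) (hx : (x : Ω) ∈ KN N) :
    residue (OO na) x ^ Q ^ p ^ m = residue (OO na) x := by
  rw [← map_pow, residue_eq]
  exact hS.resfix x x.2 hx

lemma Mpos (hS : Sit G N φ p m Q) : 0 < p ^ m := pow_pos hS.hp.pos m

/-- an element of the algebraically closed field whose trace polynomial is one -/
lemma exists_tr [IsAlgClosed Ω] (hS : Sit G N φ p m Q) :
    ∃ x : Ω, x ∈ OO na ∧ ∑ i ∈ Finset.range (p ^ m), x ^ Q ^ i = 1 := by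
  obtain ⟨k, hk⟩ : ∃ k, p ^ m = k + 1 := ⟨p ^ m - 1, by have := Mpos hS; omega⟩
  rw [hk]
  have hQ := hS.Q2
  have hlt : ∀ i, i < k → Q ^ i < Q ^ k := fun i hi => Nat.pow_lt_pow_right hQ hi
  have hpos : 0 < Q ^ k := pow_pos (by omega) k
  have hdeg : (∑ i ∈ Finset.range k, (Polynomial.X : Polynomial Ω) ^ Q ^ i - 1).degree <
      ((Q ^ k : ℕ) : WithBot ℕ) := by
    rw [← Polynomial.mem_degreeLT]
    apply Submodule.sub_mem
    · apply Submodule.sum_mem
      intro i hi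
      rw [Polynomial.mem_degreeLT, Polynomial.degree_X_pow]
      exact_mod_cast hlt i (Finset.mem_range.1 hi)
    · rw [Polynomial.mem_degreeLT, Polynomial.degree_one]
      exact_mod_cast hpos
  have hd2 : (Polynomial.X ^ Q ^ k +
      (∑ i ∈ Finset.range k, (Polynomial.X : Polynomial Ω) ^ Q ^ i - 1)).degree =
      ((Q ^ k : ℕ) : WithBot ℕ) := by
    rw [Polynomial.degree_add_eq_left_of_degree_lt, Polynomial.degree_X_pow]
    rw [Polynomial.degree_X_pow]
    exact hdeg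
  obtain ⟨x, hx⟩ := IsAlgClosed.exists_root
    (Polynomial.X ^ Q ^ k + (∑ i ∈ Finset.range k, (Polynomial.X : Polynomial Ω) ^ Q ^ i - 1))
    (by rw [hd2]; exact_mod_cast hpos.ne')
  rw [Polynomial.IsRoot.def] at hx
  simp only [Polynomial.eval_add, Polynomial.eval_sub, Polynomial.eval_pow, Polynomial.eval_X,
    Polynomial.eval_one, Polynomial.eval_finsetSum] at hx
  have hx2 : ∑ i ∈ Finset.range (k + 1), x ^ Q ^ i = 1 := by
    rw [Finset.sum_range_succ]
    linear_combination hx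
  refine ⟨x, ?_, hx2⟩
  by_contra hlt1
  have hx1 : 1 < ‖x‖ := not_le.1 hlt1
  have h3 : x ^ Q ^ k = 1 - ∑ i ∈ Finset.range k, x ^ Q ^ i := by linear_combination hx
  have h4 : ‖x ^ Q ^ k‖ ≤ ‖x‖ ^ (Q ^ k - 1) := by
    rw [h3]
    apply (BB na (‖x‖ ^ (Q ^ k - 1)) (by positivity)).sub_mem
    · rw [mem_BB, norm_one]
      exact one_le_pow₀ hx1.le
    · apply AddSubgroup.sum_mem
      intro i hi
      rw [mem_BB, norm_pow]
      have := hlt i (Finset.mem_range.1 hi)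
      exact pow_le_pow_right₀ hx1.le (by omega)
  rw [norm_pow] at h4
  exact absurd h4 (not_le.2 (pow_lt_pow_right₀ hx1 (by omega)))

/-- an integral element of the fixed field of `N` with trace one -/
lemma exists_theta (hTE : S_TE) [IsAlgClosed Ω] [CharZero Ω] (hS : Sit G N φ p m Q) :
    ∃ θ : Ω, θ ∈ OO na ∧ θ ∈ KN N ∧ ∑ i ∈ Finset.range (p ^ m), ap (φ ^ i) θ = 1 := by
  obtain ⟨x, hx, hxs⟩ := exists_tr na hS
  obtain ⟨F, hF⟩ := exists_frob na hS.resc
  have hs : ∑ i ∈ Finset.range (p ^ m), residue (OO na) ⟨x, hx⟩ ^ Q ^ i = 1 := by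
    have h1 : (∑ i ∈ Finset.range (p ^ m), (⟨x, hx⟩ : OO na) ^ Q ^ i) = 1 := by
      apply Subtype.ext
      push_cast
      exact hxs
    have h2 := congrArg (residue (OO na)) h1
    rwa [map_sum, map_one, Finset.sum_congr rfl (fun i _ => map_pow _ _ _)] at h2
  have hfix : residue (OO na) ⟨x, hx⟩ ^ Q ^ p ^ m = residue (OO na) ⟨x, hx⟩ := by
    have h1 := congrArg F hs
    rw [map_sum, map_one, Finset.sum_congr rfl (fun i _ => hF _), ← hs] at h1
    have h2 := Finset.sum_range_sub (fun i => residue (OO na) ⟨x, hx⟩ ^ Q ^ i) (p ^ m)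
    rw [Finset.sum_sub_distrib, pow_zero, pow_one] at h2
    have h3 : ∑ i ∈ Finset.range (p ^ m), residue (OO na) ⟨x, hx⟩ ^ Q ^ (i + 1) =
        ∑ i ∈ Finset.range (p ^ m), residue (OO na) ⟨x, hx⟩ ^ Q ^ i := by
      rw [← h1]
      exact Finset.sum_congr rfl fun i _ => by rw [← pow_mul, ← pow_succ]
    rw [h3, sub_self] at h2
    exact (sub_eq_zero.1 h2.symm)
  obtain ⟨x', hx'f, hx'⟩ := hTE Ω G N φ p m Q hS x hx (by
    rw [← map_pow, residue_eq] at hfix
    exact hfix)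
  have hx'1 : x' ∈ OO na := le_of_sub na hx hx'
  have hx'K : x' ∈ KN N := hx'f
  have hres : residue (OO na) ⟨x', hx'1⟩ = residue (OO na) ⟨x, hx⟩ := by
    rw [residue_eq]
    exact hx'
  set S := ∑ i ∈ Finset.range (p ^ m), ap (φ ^ i) x' with hSdef
  have hS1 : ‖S - 1‖ < 1 := by
    have h1 : residue (OO na) (∑ i ∈ Finset.range (p ^ m),
        (⟨ap (φ ^ i) x', ap_mem na hS (φ ^ i) hx'1⟩ : OO na)) = residue (OO na) 1 := by
      rw [map_sum, map_one, ← hs]
      refine Finset.sum_congr rfl fun i _ => ?_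
      rw [← hres]
      exact residue_ap_pow na hS ⟨x', hx'1⟩ hx'K i
    rw [residue_eq] at h1
    push_cast at h1
    exact h1
  have hSn : ‖S‖ = 1 := one_of_sub na norm_one hS1
  have hS0 : S ≠ 0 := by
    intro h0
    rw [h0, norm_zero] at hSn
    exact zero_ne_one hSn
  have hSK : S ∈ KN N := (KN N).sum_mem fun i _ => KN_ap hS.nor _ hx'K
  have hSφ : ap φ S = S := by
    have h1 : ap φ S = ∑ i ∈ Finset.range (p ^ m), ap (φ ^ (i + 1)) x' := by
      rw [hSdef, map_sum]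
      exact Finset.sum_congr rfl fun i _ => (ap_pow_succ i x').symm
    have h2 := Finset.sum_range_succ' (fun i => ap (φ ^ i) x') (p ^ m)
    have h3 := Finset.sum_range_succ (fun i => ap (φ ^ i) x') (p ^ m)
    have h4 : ap (φ ^ p ^ m) x' = x' := hx'K _ hS.phiM
    rw [h3, h4, pow_zero, ap_one] at h2
    rw [h1]
    exact (add_right_cancel h2).symm
  refine ⟨x' / S, ?_, (KN N).div_mem hx'K hSK, ?_⟩
  · show ‖x' / S‖ ≤ 1
    rw [norm_div, hSn, div_one]
    exact hx'1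
  · have h1 : ∀ i : ℕ, ap (φ ^ i) S = S := fun i =>
      fix_all hS.gen hSK hSφ (φ ^ i)
    rw [Finset.sum_congr rfl fun i _ => show ap (φ ^ i) (x' / S) = ap (φ ^ i) x' / S by
      rw [map_div₀, h1], ← Finset.sum_div, div_self hS0]

end frob

end Pool.Agent.P8H57.UL
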