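import Pool.Agent.P8H57.UL.IR
import Pool.Agent.P8H57.UL.SitB

/-!
# Project UL: descent of a change of variables (MQ)
-/

set_option autoImplicit false

open WeierstrassCurve IsLocalRing

namespace Pool.Agent.P8H57.UL

open Pool.Agent.P8H17.UL

section mq

variable {Ω : Type} [NormedField Ω]

/-- the integrality of the transformed equation depends only on the norm of the unit -/
lemma int_of_norm {V : WeierstrassCurve Ω} {C C₁ : VariableChange Ω} (h : IntW (C • V))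
    (hu : ‖(C₁.u : Ω)‖ = ‖(C.u : Ω)‖) (hr : C₁.r = C.r) (hs : C₁.s = C.s) (ht : C₁.t = C.t) :
    IntW (C₁ • V) := by
  have hk : ‖((C₁.u⁻¹ : Ωˣ) : Ω)‖ = ‖((C.u⁻¹ : Ωˣ) : Ω)‖ := by
    rw [Units.val_inv_eq_inv_val, Units.val_inv_eq_inv_val, norm_inv, norm_inv, hu]
  obtain ⟨h1, h2, h3, h4, h6, hΔ⟩ := h
  rw [variableChange_a₁, norm_mul] at h1
  rw [variableChange_a₂, norm_mul, norm_pow] at h2
  rw [variableChange_a₃, norm_mul, norm_pow] at h3
  rw [variableChange_a₄, norm_mul, norm_pow] at h4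
  rw [variableChange_a₆, norm_mul, norm_pow] at h6
  rw [variableChange_Δ] at hΔ
  refine ⟨?_, ?_, ?_, ?_, ?_, ?_⟩
  · rw [variableChange_a₁, norm_mul, hk, hs]
    exact h1
  · rw [variableChange_a₂, norm_mul, norm_pow, hk, hs, hr]
    exact h2
  · rw [variableChange_a₃, norm_mul, norm_pow, hk, hr, ht]
    exact h3
  · rw [variableChange_a₄, norm_mul, norm_pow, hk, hr, hs, ht]
    exact h4
  · rw [variableChange_a₆, norm_mul, norm_pow, hk, hr, ht]
    exact h6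
  · rw [variableChange_Δ]
    exact mul_ne_zero (pow_ne_zero _ (Units.ne_zero _)) (right_ne_zero_of_mul hΔ)

/-- integral changes of variables with unit one -/
lemma int_of_int (na : ∀ x y : Ω, ‖x + y‖ ≤ max ‖x‖ ‖y‖) {V : WeierstrassCurve Ω} (hV : IntW V)
    {r s t : Ω} (hr : ‖r‖ ≤ 1) (hs : ‖s‖ ≤ 1) (ht : ‖t‖ ≤ 1) :
    IntW ((⟨1, r, s, t⟩ : VariableChange Ω) • V) := by
  let D : VariableChange (OO na) := ⟨1, ⟨r, hr⟩, ⟨s, hs⟩, ⟨t, ht⟩⟩
  have hD : D.map (OO na).subtype = (⟨1, r, s, t⟩ : VariableChange Ω) := by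
    ext
    · simp [D, VariableChange.map]
    · rfl
    · rfl
    · rfl
  have hDV : (⟨1, r, s, t⟩ : VariableChange Ω) • V = (D • VO na hV).map (OO na).subtype := by
    rw [← map_variableChange, hD]
    rfl
  refine ⟨?_, ?_, ?_, ?_, ?_, ?_⟩
  · rw [hDV]
    exact (D • VO na hV).a₁.2
  · rw [hDV]
    exact (D • VO na hV).a₂.2
  · rw [hDV]
    exact (D • VO na hV).a₃.2
  · rw [hDV]
    exact (D • VO na hV).a₄.2
  · rw [hDV]
    exact (D • VO na hV).a₆.2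
  · rw [variableChange_Δ]
    exact mul_ne_zero (pow_ne_zero _ (Units.ne_zero _)) hV.hΔ

/-- isometric images of integral equations are integral -/
lemma int_map {V : WeierstrassCurve Ω} (hV : IntW V) (f : Ω →+* Ω) (hf : ∀ x, ‖f x‖ = ‖x‖) :
    IntW (V.map f) := by
  refine ⟨?_, ?_, ?_, ?_, ?_, ?_⟩
  · rw [map_a₁, hf]
    exact hV.h1
  · rw [map_a₂, hf]
    exact hV.h2
  · rw [map_a₃, hf]
    exact hV.h3
  · rw [map_a₄, hf]
    exact hV.h4
  · rw [map_a₆, hf]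
    exact hV.h6
  · rw [map_Δ]
    exact (map_ne_zero f).2 hV.hΔ

variable {G : Subgroup (RingAut Ω)} {N : Subgroup G} {φ : G} {p m Q : ℕ}

/-- traces are fixed -/
lemma tr_fix (hS : Sit G N φ p m Q) {x : Ω} (hx : x ∈ KN N) (τ : G) :
    (τ : RingAut Ω) (∑ i ∈ Finset.range (p ^ m), ap (φ ^ i) x) =
      ∑ i ∈ Finset.range (p ^ m), ap (φ ^ i) x := by
  apply fix_all hS.gen ((KN N).sum_mem fun i _ => KN_ap hS.nor _ hx)
  have h1 : ap φ (∑ i ∈ Finset.range (p ^ m), ap (φ ^ i) x) =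
      ∑ i ∈ Finset.range (p ^ m), ap (φ ^ (i + 1)) x := by
    rw [map_sum]
    exact Finset.sum_congr rfl fun i _ => (ap_pow_succ i x).symm
  have h2 := Finset.sum_range_succ' (fun i => ap (φ ^ i) x) (p ^ m)
  have h3 := Finset.sum_range_succ (fun i => ap (φ ^ i) x) (p ^ m)
  have h4 : ap (φ ^ p ^ m) x = x := hx _ hS.phiM
  rw [h3, h4, pow_zero, ap_one] at h2
  rw [h1]
  exact (add_right_cancel h2).symm

/-- the change of variables is nearly fixed -/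
lemma near (hS : Sit G N φ p m Q) {V : WeierstrassCurve Ω} (hF : FixW V G) {w : Ω} (hw : w ≠ 0)
    (hwf : ∀ τ : G, ap τ w = w) {r s t : Ω}
    (hC : IntW ((⟨Units.mk0 w hw, r, s, t⟩ : VariableChange Ω) • V)) (τ : G) :
    ‖ap τ r - r‖ ≤ ‖w‖ ^ 2 ∧ ‖ap τ s - s‖ ≤ ‖w‖ ∧
      ‖ap τ t - t - s * (ap τ r - r)‖ ≤ ‖w‖ ^ 3 := by
  set C₁ : VariableChange Ω := ⟨Units.mk0 w hw, r, s, t⟩ with hC₁
  have hV' : V.map (ap τ) = V := hF τ τ.2
  have e1 : (C₁.map (ap τ)) • V = (C₁ • V).map (ap τ) := by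
    have h := map_variableChange V C₁ (ap τ)
    rwa [hV'] at h
  have hI : IntW ((C₁ • V).map (ap τ)) := int_map hC _ (hS.iso τ)
  have hD : (C₁.map (ap τ) * C₁⁻¹) • (C₁ • V) = (C₁ • V).map (ap τ) := by
    rw [← mul_smul, inv_mul_cancel_right, e1]
  have hDC : (C₁.map (ap τ) * C₁⁻¹) * C₁ = C₁.map (ap τ) := inv_mul_cancel_right _ _
  have hDu : (((C₁.map (ap τ) * C₁⁻¹).u : Ωˣ) : Ω) = 1 := by
    have h : (((C₁.map (ap τ) * C₁⁻¹).u : Ωˣ) : Ω) = ap τ w * w⁻¹ := rfl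
    rw [h, hwf, mul_inv_cancel₀ hw]
  obtain ⟨h1, h2, h3⟩ := ir Ω hS.na (C₁ • V) (C₁.map (ap τ) * C₁⁻¹) hC (by rw [hD]; exact hI)
    (by rw [hDu, norm_one])
  set D := C₁.map (ap τ) * C₁⁻¹
  have er : D.r * w ^ 2 + r = ap τ r := congrArg VariableChange.r hDC
  have es : w * D.s + s = ap τ s := congrArg VariableChange.s hDC
  have et : D.t * w ^ 3 + D.r * s * w ^ 2 + t = ap τ t := congrArg VariableChange.t hDC
  refine ⟨?_, ?_, ?_⟩
  · rw [← er, add_sub_cancel_right, norm_mul, norm_pow]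
    exact mul_le_of_le_one_left (by positivity) h1
  · rw [← es, add_sub_cancel_right, norm_mul]
    exact mul_le_of_le_one_right (by positivity) h2
  · have : ap τ t - t - s * (ap τ r - r) = D.t * w ^ 3 := by
      rw [← er, ← et]
      ring
    rw [this, norm_mul, norm_pow]
    exact mul_le_of_le_one_left (by positivity) h3

end mq

/-- descent of a change of variables -/
theorem mq (hTE : S_TE) : S_MQ := by
  intro Ω _ _ _ G N φ p m Q hS V hV hF C hu hC hfix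
  have na := hS.na
  obtain ⟨π, hπ0, hπ1, hπf, hπd⟩ := hS.unif
  have hπK : π ∈ KN N := fun σ _ => hπf σ
  have huK : (C.u : Ω) ∈ KN N := fun σ hσ => (hfix σ hσ).1
  have hrK : C.r ∈ KN N := fun σ hσ => (hfix σ hσ).2.1
  have hsK : C.s ∈ KN N := fun σ hσ => (hfix σ hσ).2.2.1
  have htK : C.t ∈ KN N := fun σ hσ => (hfix σ hσ).2.2.2
  obtain ⟨n, hn⟩ := disc hπ0 hπ1 hπK hπd huK C.u.ne_zero hu.le
  have hw0 : π ^ n ≠ 0 := pow_ne_zero n (norm_pos_iff.1 hπ0)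
  have hwf : ∀ τ : G, ap τ (π ^ n) = π ^ n := fun τ => by
    rw [map_pow]
    exact congrArg (· ^ n) (hπf τ)
  have hwn : ‖π ^ n‖ = ‖(C.u : Ω)‖ := by rw [norm_pow, hn]
  generalize π ^ n = w at hw0 hwf hwn
  have hC₁ : IntW ((⟨Units.mk0 w hw0, C.r, C.s, C.t⟩ : VariableChange Ω) • V) :=
    int_of_norm hC hwn rfl rfl rfl
  have key := fun τ : G => near hS hF hw0 hwf hC₁ τ
  obtain ⟨θ, hθ1, hθK, hθs⟩ := exists_theta na hTE hS
  have avs : ∀ x : Ω, ∑ i ∈ Finset.range (p ^ m), ap (φ ^ i) (θ * x) - x =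
      ∑ i ∈ Finset.range (p ^ m), ap (φ ^ i) θ * (ap (φ ^ i) x - x) := by
    intro x
    simp_rw [mul_sub, Finset.sum_sub_distrib, ← Finset.sum_mul, hθs, one_mul, map_mul]
  have hth : ∀ (i : ℕ) (y : Ω) (c : ℝ), ‖y‖ ≤ c → ‖ap (φ ^ i) θ * y‖ ≤ c := by
    intro i y c hy
    rw [norm_mul]
    have h1 : ‖ap (φ ^ i) θ‖ ≤ 1 := ap_mem na hS (φ ^ i) hθ1
    exact le_trans (mul_le_of_le_one_left (norm_nonneg _) h1) hy
  have hr1 : ‖∑ i ∈ Finset.range (p ^ m), ap (φ ^ i) (θ * C.r) - C.r‖ ≤ ‖w‖ ^ 2 := by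
    rw [avs]
    exact (BB na (‖w‖ ^ 2) (by positivity)).sum_mem fun i _ => hth i _ _ (key (φ ^ i)).1
  have hs1 : ‖∑ i ∈ Finset.range (p ^ m), ap (φ ^ i) (θ * C.s) - C.s‖ ≤ ‖w‖ := by
    rw [avs]
    exact (BB na ‖w‖ (by positivity)).sum_mem fun i _ => hth i _ _ (key (φ ^ i)).2.1
  have ht1 : ‖∑ i ∈ Finset.range (p ^ m), ap (φ ^ i) (θ * C.t) - C.t -
      C.s * (∑ i ∈ Finset.range (p ^ m), ap (φ ^ i) (θ * C.r) - C.r)‖ ≤ ‖w‖ ^ 3 := by
    rw [avs, avs, Finset.mul_sum, ← Finset.sum_sub_distrib]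
    refine (BB na (‖w‖ ^ 3) (by positivity)).sum_mem fun i _ => ?_
    have h := hth i _ _ (key (φ ^ i)).2.2
    rw [mem_BB]
    refine le_trans (le_of_eq (congrArg _ ?_)) h
    ring
  have fixr := tr_fix hS ((KN N).mul_mem hθK hrK)
  have fixs := tr_fix hS ((KN N).mul_mem hθK hsK)
  have fixt := tr_fix hS ((KN N).mul_mem hθK htK)
  generalize ∑ i ∈ Finset.range (p ^ m), ap (φ ^ i) (θ * C.r) = r' at hr1 ht1 fixr
  generalize ∑ i ∈ Finset.range (p ^ m), ap (φ ^ i) (θ * C.s) = s' at hs1 fixs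
  generalize ∑ i ∈ Finset.range (p ^ m), ap (φ ^ i) (θ * C.t) = t' at ht1 fixt
  have hw : 0 < ‖w‖ := norm_pos_iff.2 hw0
  have hI := int_of_int na hC₁ (r := (r' - C.r) / w ^ 2) (s := (s' - C.s) / w)
    (t := (t' - C.t - C.s * (r' - C.r)) / w ^ 3)
    (by rw [norm_div, norm_pow, div_le_one (by positivity)]; exact hr1)
    (by rw [norm_div, div_le_one (by positivity)]; exact hs1)
    (by rw [norm_div, norm_pow, div_le_one (by positivity)]; exact ht1)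
  rw [← mul_smul] at hI
  have hprod : (⟨1, (r' - C.r) / w ^ 2, (s' - C.s) / w,
      (t' - C.t - C.s * (r' - C.r)) / w ^ 3⟩ : VariableChange Ω) *
      (⟨Units.mk0 w hw0, C.r, C.s, C.t⟩ : VariableChange Ω) =
      (⟨Units.mk0 w hw0, r', s', t'⟩ : VariableChange Ω) := by
    rw [VariableChange.mul_def]
    ext
    · simp
    · show (r' - C.r) / w ^ 2 * w ^ 2 + C.r = r'
      field_simp
      ring
    · show w * ((s' - C.s) / w) + C.s = s'
      field_simp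
      ring
    · show (t' - C.t - C.s * (r' - C.r)) / w ^ 3 * w ^ 3 + (r' - C.r) / w ^ 2 * C.s * w ^ 2 + C.t
        = t'
      field_simp
      ring
  rw [hprod] at hI
  exact ⟨_, hwn, hI, fun σ => ⟨hwf σ, fixr σ, fixs σ, fixt σ⟩⟩

end Pool.Agent.P8H57.UL
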