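import Pool.Agent.P8H17.UL.Stm

/-!
# Project UL: integral elements of a field with a nonarchimedean norm
-/

set_option autoImplicit false

open WeierstrassCurve IsLocalRing

namespace Pool.Agent.P8H57.UL

open Pool.Agent.P8H17.UL

section na

variable {Ω : Type} [NormedField Ω]

/-- the elements of norm at most one -/
def OO (na : ∀ x y : Ω, ‖x + y‖ ≤ max ‖x‖ ‖y‖) : ValuationSubring Ω where
  carrier := {x | ‖x‖ ≤ 1}
  mul_mem' := fun {x y} hx hy => by
    have h1 : ‖x‖ ≤ 1 := hx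
    have h2 : ‖y‖ ≤ 1 := hy
    show ‖x * y‖ ≤ 1
    rw [norm_mul]
    exact mul_le_one₀ h1 (norm_nonneg _) h2
  one_mem' := by simp
  add_mem' := fun {x y} hx hy => le_trans (na x y) (max_le hx hy)
  zero_mem' := by simp
  neg_mem' := fun {x} hx => by
    show ‖-x‖ ≤ 1
    rw [norm_neg]
    exact hx
  mem_or_inv_mem' := fun x => by
    by_cases hx : ‖x‖ ≤ 1
    · exact Or.inl hx
    · right
      show ‖x⁻¹‖ ≤ 1
      rw [norm_inv]
      exact inv_le_one_of_one_le₀ (le_of_lt (not_le.1 hx))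

variable (na : ∀ x y : Ω, ‖x + y‖ ≤ max ‖x‖ ‖y‖)

lemma mem_OO (x : Ω) : x ∈ OO na ↔ ‖x‖ ≤ 1 := Iff.rfl

/-- the elements of norm at most `c` -/
def BB (c : ℝ) (hc : 0 ≤ c) : AddSubgroup Ω where
  carrier := {x | ‖x‖ ≤ c}
  add_mem' := fun {x y} hx hy => le_trans (na x y) (max_le hx hy)
  zero_mem' := by simpa using hc
  neg_mem' := fun {x} hx => by
    show ‖-x‖ ≤ c
    rw [norm_neg]
    exact hx

lemma mem_BB (c : ℝ) (hc : 0 ≤ c) (x : Ω) : x ∈ BB na c hc ↔ ‖x‖ ≤ c := Iff.rfl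

/-- the elements of norm less than `c` -/
def BS (c : ℝ) (hc : 0 < c) : AddSubgroup Ω where
  carrier := {x | ‖x‖ < c}
  add_mem' := fun {x y} hx hy => lt_of_le_of_lt (na x y) (max_lt hx hy)
  zero_mem' := by simpa using hc
  neg_mem' := fun {x} hx => by
    show ‖-x‖ < c
    rw [norm_neg]
    exact hx

lemma mem_BS (c : ℝ) (hc : 0 < c) (x : Ω) : x ∈ BS na c hc ↔ ‖x‖ < c := Iff.rfl

include na in
lemma na_sub (x y : Ω) : ‖x - y‖ ≤ max ‖x‖ ‖y‖ := by
  have h := na x (-y)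
  rwa [norm_neg, ← sub_eq_add_neg] at h

/-- integral multiples of small elements are small -/
lemma lt_mul {x y : Ω} (hx : ‖x‖ ≤ 1) (hy : ‖y‖ < 1) : ‖x * y‖ < 1 := by
  rw [norm_mul]
  calc ‖x‖ * ‖y‖ ≤ 1 * ‖y‖ := mul_le_mul_of_nonneg_right hx (norm_nonneg _)
    _ < 1 := by rw [one_mul]; exact hy

include na in
/-- elements congruent to a unit are units -/
lemma one_of_sub {x y : Ω} (hx : ‖x‖ = 1) (hxy : ‖y - x‖ < 1) : ‖y‖ = 1 := by
  apply le_antisymm
  · have h := na (y - x) x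
    rw [sub_add_cancel] at h
    exact le_trans h (max_le hxy.le hx.le)
  · by_contra hlt
    have h := na_sub na y (y - x)
    rw [sub_sub_cancel, hx] at h
    exact absurd (lt_of_le_of_lt h (max_lt (not_le.1 hlt) hxy)) (lt_irrefl _)

include na in
lemma le_of_sub {x y : Ω} (hx : ‖x‖ ≤ 1) (hxy : ‖y - x‖ < 1) : ‖y‖ ≤ 1 := by
  have h := na (y - x) x
  rw [sub_add_cancel] at h
  exact le_trans h (max_le hxy.le hx)

/-- the residue is zero if and only if the norm is less than one -/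
lemma residue_eq_zero (x : OO na) : residue (OO na) x = 0 ↔ ‖(x : Ω)‖ < 1 := by
  rw [residue_eq_zero_iff, mem_maximalIdeal, mem_nonunits_iff]
  constructor
  · intro h
    by_contra hx
    apply h
    have h1 : ‖(x : Ω)‖ = 1 := le_antisymm x.2 (not_lt.1 hx)
    have h0 : (x : Ω) ≠ 0 := by
      intro h0
      rw [h0, norm_zero] at h1
      exact zero_ne_one h1
    have hi : ((x : Ω)⁻¹) ∈ OO na := by
      rw [mem_OO, norm_inv, h1, inv_one]
    exact IsUnit.of_mul_eq_one ⟨_, hi⟩ (Subtype.ext (mul_inv_cancel₀ h0))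
  · intro h hu
    obtain ⟨y, hy⟩ := hu.exists_right_inv
    have h1 : (x : Ω) * (y : Ω) = 1 := congrArg Subtype.val hy
    have h2 : ‖(x : Ω) * (y : Ω)‖ < 1 := by
      rw [mul_comm]
      exact lt_mul y.2 h
    rw [h1, norm_one] at h2
    exact lt_irrefl _ h2

lemma residue_eq (x y : OO na) : residue (OO na) x = residue (OO na) y ↔ ‖(x : Ω) - y‖ < 1 := by
  rw [← sub_eq_zero, ← map_sub, residue_eq_zero]
  rfl

/-- the equation over the ring of integral elements -/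
def VO {V : WeierstrassCurve Ω} (hV : IntW V) : WeierstrassCurve (OO na) :=
  ⟨⟨V.a₁, hV.h1⟩, ⟨V.a₂, hV.h2⟩, ⟨V.a₃, hV.h3⟩, ⟨V.a₄, hV.h4⟩, ⟨V.a₆, hV.h6⟩⟩

lemma gn_VO {V : WeierstrassCurve Ω} (hV : IntW V) : gn (VO na hV) = V := rfl

end na

end Pool.Agent.P8H57.UL
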