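import Pool.Agent.P8H57.UL.SitB
import Pool.Agent.P8H92.UL.RD
import Pool.Agent.P8H72.UL.TA

/-!
# Project UL: the first cohomology group of the points with nonsingular reduction is zero (CO)
-/

set_option autoImplicit false

open WeierstrassCurve IsLocalRing

namespace Pool.Agent.P8H57.UL

open Pool.Agent.P8H17.UL

/-- the residue field of a valuation ring of an algebraically closed field -/
theorem res_algClosed {K : Type} [Field K] [IsAlgClosed K] (V : ValuationSubring K) :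
    IsAlgClosed (ResidueField V) := by
  refine IsAlgClosed.of_exists_root _ ?_
  intro p hp hirr
  have hl : p ∈ Polynomial.lifts (residue V) := by
    rw [Polynomial.lifts_iff_coeff_lifts]
    intro n
    exact residue_surjective (p.coeff n)
  obtain ⟨q, hq, hdeg, hmon⟩ := Polynomial.lifts_and_degree_eq_and_monic hl hp
  have hd : (q.map (algebraMap V K)).degree ≠ 0 := by
    rw [hmon.degree_map, hdeg]
    exact hirr.degree_pos.ne'
  obtain ⟨x, hx⟩ := IsAlgClosed.exists_root (q.map (algebraMap V K)) hd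
  have hint : IsIntegral V x := by
    refine ⟨q, hmon, ?_⟩
    rw [← Polynomial.eval_map]
    exact hx
  obtain ⟨y, hy⟩ := IsIntegrallyClosed.isIntegral_iff.mp hint
  refine ⟨residue V y, ?_⟩
  have h0 : Polynomial.eval y q = 0 := by
    apply IsFractionRing.injective V K
    rw [map_zero, ← hx, ← hy, Polynomial.eval_map, Polynomial.eval₂_hom]
  rw [← hq, Polynomial.eval_map, Polynomial.eval₂_hom, h0, map_zero]

section co

variable {Ω : Type} [NormedField Ω] (na : ∀ x y : Ω, ‖x + y‖ ≤ max ‖x‖ ‖y‖)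

/-- elements of norm one have nonzero residues -/
lemma residue_ne_zero' (x : OO na) : residue (OO na) x ≠ 0 ↔ ‖(x : Ω)‖ = 1 := by
  rw [Ne, residue_eq_zero]
  constructor
  · intro h
    exact le_antisymm x.2 (not_lt.1 h)
  · intro h hlt
    rw [h] at hlt
    exact lt_irrefl _ hlt

lemma NS_pt {V : WeierstrassCurve Ω} {x y : Ω} (h : V.toAffine.Nonsingular x y) :
    NS (pt h) ↔ (1 < ‖x‖ ∨ ‖V.a₁ * y - (3 * x ^ 2 + 2 * V.a₂ * x + V.a₄)‖ = 1 ∨
      ‖2 * y + V.a₁ * x + V.a₃‖ = 1) := by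
  constructor
  · intro hn
    exact hn x y h rfl
  · intro hn x' y' h' e
    obtain ⟨e1, e2⟩ := pt_inj e
    subst e1 e2
    exact hn

/-- nonsingular residues -/
lemma ns_res (V' : WeierstrassCurve (OO na)) (x y : OO na) :
    (sp V').toAffine.Nonsingular (residue _ x) (residue _ y) ↔
      ‖(y : Ω) ^ 2 + (gn V').a₁ * x * y + (gn V').a₃ * y -
        ((x : Ω) ^ 3 + (gn V').a₂ * x ^ 2 + (gn V').a₄ * x + (gn V').a₆)‖ < 1 ∧
      (‖(gn V').a₁ * (y : Ω) - (3 * (x : Ω) ^ 2 + 2 * (gn V').a₂ * x + (gn V').a₄)‖ = 1 ∨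
        ‖2 * (y : Ω) + (gn V').a₁ * x + (gn V').a₃‖ = 1) := by
  rw [Affine.nonsingular_iff', Affine.equation_iff']
  have e0 : residue (OO na) y ^ 2 + (sp V').toAffine.a₁ * residue _ x * residue _ y +
      (sp V').toAffine.a₃ * residue _ y - (residue _ x ^ 3 + (sp V').toAffine.a₂ * residue _ x ^ 2 +
        (sp V').toAffine.a₄ * residue _ x + (sp V').toAffine.a₆) =
      residue (OO na) (y ^ 2 + V'.a₁ * x * y + V'.a₃ * y -
        (x ^ 3 + V'.a₂ * x ^ 2 + V'.a₄ * x + V'.a₆)) := by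
    simp only [map_sub, map_add, map_mul, map_pow]
    rfl
  have e1 : (sp V').toAffine.a₁ * residue _ y - (3 * residue _ x ^ 2 +
      2 * (sp V').toAffine.a₂ * residue _ x + (sp V').toAffine.a₄) =
      residue (OO na) (V'.a₁ * y - (3 * x ^ 2 + 2 * V'.a₂ * x + V'.a₄)) := by
    simp only [map_sub, map_add, map_mul, map_pow, map_ofNat]
    rfl
  have e2 : 2 * residue _ y + (sp V').toAffine.a₁ * residue _ x +
      (sp V').toAffine.a₃ = residue (OO na) (2 * y + V'.a₁ * x + V'.a₃) := by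
    simp only [map_add, map_mul, map_ofNat]
    rfl
  rw [e0, e1, e2, residue_ne_zero', residue_ne_zero', residue_eq_zero]
  rfl

/-- the residues of the coordinates of a point satisfy the equation -/
lemma eq_small {V' : WeierstrassCurve (OO na)} {x y : Ω} (h : (gn V').toAffine.Equation x y) :
    ‖y ^ 2 + (gn V').a₁ * x * y + (gn V').a₃ * y -
        (x ^ 3 + (gn V').a₂ * x ^ 2 + (gn V').a₄ * x + (gn V').a₆)‖ < 1 := by
  rw [Affine.equation_iff'] at h
  rw [h, norm_zero]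
  exact one_pos

/-- the domain of the reduction -/
lemma mem_iff {V' : WeierstrassCurve (OO na)} {E : AddSubgroup (Pt (gn V'))}
    {red : E →+ Pt (sp V')} (hE : IsRed V' E red) (P : Pt (gn V')) : P ∈ E ↔ NS P := by
  rcases pt_cases P with rfl | ⟨x, y, h, rfl⟩
  · exact ⟨fun _ x y h e => absurd e.symm (pt_ne _), fun _ => E.zero_mem⟩
  rw [hE.mem, NS_pt]
  by_cases hx : x ∈ OO na
  · have hy : y ∈ OO na := P8H92.UL.y_mem h.1 hx
    have hx1 : ¬ 1 < ‖x‖ := not_lt.2 hx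
    have hx2 : ¬ x ∉ OO na := fun hn => hn hx
    simp only [hx1, hx2, false_or]
    constructor
    · rintro ⟨x', y', e1, e2, g⟩
      rw [ns_res] at g
      rw [← e1, ← e2]
      exact g.2
    · intro g
      exact ⟨⟨x, hx⟩, ⟨y, hy⟩, rfl, rfl, (ns_res na V' _ _).2 ⟨eq_small na h.1, g⟩⟩
  · exact ⟨fun _ => Or.inl (not_le.1 hx), fun _ => Or.inl hx⟩

variable {G : Subgroup (RingAut Ω)} {N : Subgroup G} {φ : G} {p m Q : ℕ}

/-- the reduced equation is fixed by the power map -/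
lemma sp_map (hS : Sit G N φ p m Q) {V' : WeierstrassCurve (OO na)} (hF : FixW (gn V') G)
    {F : ResidueField (OO na) →+* ResidueField (OO na)} (hFr : ∀ x, F x = x ^ Q) :
    (sp V').map F = sp V' := by
  have key : ∀ a : OO na, (∀ τ : G, ap τ (a : Ω) = a) → F (residue _ a) = residue _ a := by
    intro a ha
    rw [hFr, ← residue_ap na hS a (fun σ _ => ha σ)]
    congr 1
    exact Subtype.ext (ha φ)
  have hf : ∀ τ : G, (gn V').map (ap τ) = gn V' := fun τ => hF τ τ.2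
  ext
  · exact key V'.a₁ fun τ => congrArg WeierstrassCurve.a₁ (hf τ)
  · exact key V'.a₂ fun τ => congrArg WeierstrassCurve.a₂ (hf τ)
  · exact key V'.a₃ fun τ => congrArg WeierstrassCurve.a₃ (hf τ)
  · exact key V'.a₄ fun τ => congrArg WeierstrassCurve.a₄ (hf τ)
  · exact key V'.a₆ fun τ => congrArg WeierstrassCurve.a₆ (hf τ)

/-- the reduction of the image under `φ` -/
lemma red_T (hS : Sit G N φ p m Q) {V' : WeierstrassCurve (OO na)} (hF : FixW (gn V') G)
    {F : ResidueField (OO na) →+* ResidueField (OO na)} (hFr : ∀ x, F x = x ^ Q)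
    (hm : (sp V').map F = sp V') {E : AddSubgroup (Pt (gn V'))}
    {red : E →+ Pt (sp V')} (hE : IsRed V' E red) {P : Pt (gn V')} (hP : P ∈ Fix hF N)
    (h1 : P ∈ E) (h2 : T hF φ P ∈ E) : red ⟨T hF φ P, h2⟩ = mp F hm (red ⟨P, h1⟩) := by
  rcases pt_cases P with rfl | ⟨x, y, h, rfl⟩
  · have e1 : (⟨0, h1⟩ : E) = 0 := rfl
    have e2 : (⟨T hF φ 0, h2⟩ : E) = 0 := Subtype.ext (map_zero _)
    rw [e1, e2, map_zero, map_zero]
  have hT : T hF φ (pt h) = pt (ns_map (hF φ φ.2) h) := rfl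
  by_cases hx : x ∈ OO na
  · have hy : y ∈ OO na := P8H92.UL.y_mem h.1 hx
    have hfx := (pt_mem_Fix hF N h).1 hP
    obtain ⟨g, hg⟩ := hE.some ⟨x, hx⟩ ⟨y, hy⟩ h h1
    obtain ⟨g', hg'⟩ := hE.some ⟨ap φ x, ap_mem na hS φ hx⟩ ⟨ap φ y, ap_mem na hS φ hy⟩
      (ns_map (hF φ φ.2) h) h2
    have e1 : red ⟨T hF φ (pt h), h2⟩ = pt g' := hg'
    rw [e1, hg, mp_pt]
    apply pt_congr
    · rw [hFr]
      exact residue_ap na hS ⟨x, hx⟩ (fun σ hσ => (hfx σ hσ).1)
    · rw [hFr]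
      exact residue_ap na hS ⟨y, hy⟩ (fun σ hσ => (hfx σ hσ).2)
  · have hx' : ap φ x ∉ OO na := by
      intro h'
      apply hx
      have h3 : ‖ap φ x‖ ≤ 1 := h'
      rwa [ap_apply, hS.iso] at h3
    rw [hE.zero x y h h1 hx, map_zero]
    exact hE.zero _ _ (ns_map (hF φ φ.2) h) h2 hx'

/-- the iterated power map on a point -/
lemma iter_pt {κ : Type} [Field κ] {F : κ →+* κ} (hFr : ∀ x, F x = x ^ Q)
    {W : WeierstrassCurve κ} (hm : W.map F = W) {x y : κ} (g : W.toAffine.Nonsingular x y) (i : ℕ) :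
    ∃ g' : W.toAffine.Nonsingular (x ^ Q ^ i) (y ^ Q ^ i), (mp F hm)^[i] (pt g) = pt g' := by
  induction i with
  | zero =>
    have e : ∀ z : κ, z ^ Q ^ 0 = z := fun z => by rw [pow_zero, pow_one]
    have g' : W.toAffine.Nonsingular (x ^ Q ^ 0) (y ^ Q ^ 0) := by
      rw [e, e]
      exact g
    exact ⟨g', pt_congr _ _ (e x).symm (e y).symm⟩
  | succ i ih =>
    obtain ⟨g1, hg1⟩ := ih
    have e : ∀ z : κ, F (z ^ Q ^ i) = z ^ Q ^ (i + 1) := fun z => by
      rw [hFr, ← pow_mul, ← pow_succ]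
    have g' := ns_map hm g1
    have g'' : W.toAffine.Nonsingular (x ^ Q ^ (i + 1)) (y ^ Q ^ (i + 1)) := by
      rw [← e, ← e]
      exact g'
    refine ⟨g'', ?_⟩
    rw [Function.iterate_succ_apply', hg1, mp_pt]
    exact pt_congr _ _ (e x) (e y)

end co

section act

variable {Ω : Type} [NormedField Ω] {G : Subgroup (RingAut Ω)} {N : Subgroup G} {φ : G}
  {V : WeierstrassCurve Ω}

lemma T_pow_succ (hF : FixW V G) (i : ℕ) (P : Pt V) :
    T hF (φ ^ (i + 1)) P = T hF φ (T hF (φ ^ i) P) := by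
  rw [pow_succ', T_mul]

lemma T_pow_succ' (hF : FixW V G) (i : ℕ) (P : Pt V) :
    T hF (φ ^ (i + 1)) P = T hF (φ ^ i) (T hF φ P) := by
  rw [pow_succ, T_mul]

lemma Fix_T (hF : FixW V G) (hN : N.Normal) (τ : G) {P : Pt V} (hP : P ∈ Fix hF N) :
    T hF τ P ∈ Fix hF N := by
  intro σ hσ
  have h : τ⁻¹ * σ * τ ∈ N := by
    have := hN.conj_mem σ hσ τ⁻¹
    rwa [inv_inv] at this
  have h2 : T hF (τ * (τ⁻¹ * σ * τ)) P = T hF τ P := by
    rw [T_mul, hP _ h]
  have h3 : τ * (τ⁻¹ * σ * τ) = σ * τ := by group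
  rw [h3, T_mul] at h2
  exact h2

end act

/-- the first cohomology group of the points with nonsingular reduction is zero -/
theorem co (hRD : S_RD) (hLB : S_LB) (hHE : S_HE) (hEH : S_EH) : S_CO := by
  intro Ω _ _ _ G N φ p m Q hS V hV hF a haF haN hsum
  have na := hS.na
  obtain ⟨V', rfl⟩ : ∃ V' : WeierstrassCurve (OO na), gn V' = V := ⟨VO na hV, rfl⟩
  obtain ⟨E, red, hE⟩ := hRD Ω (OO na) V'
  obtain ⟨F, hFr⟩ := exists_frob na hS.resc
  have hm := sp_map na hS hF hFr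
  have hcl : IsAlgClosed (ResidueField (OO na)) := res_algClosed (OO na)
  have hTE : ∀ (τ : G) (P : Pt (gn V')), P ∈ E → T hF τ P ∈ E := fun τ P hP =>
    (mem_iff na hE _).2 (P8H72.UL.ns_T hF hS.iso τ ((mem_iff na hE P).1 hP))
  have haE : a ∈ E := (mem_iff na hE a).2 haN
  obtain ⟨c, hc⟩ := hLB (ResidueField (OO na)) Q hS.Q2 F hFr (sp V') hm (red ⟨a, haE⟩)
  -- the iterates
  have hit : ∀ i : ℕ, red ⟨T hF (φ ^ i) a, hTE _ a haE⟩ = (mp F hm)^[i] (red ⟨a, haE⟩) := by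
    intro i
    induction i with
    | zero =>
      rw [Function.iterate_zero_apply]
      congr 1
      exact Subtype.ext (by rw [pow_zero]; exact T_one hF a)
    | succ i ih =>
      rw [Function.iterate_succ_apply', ← ih, ← red_T na hS hF hFr hm hE (Fix_T hF hS.nor _ haF)
        (hTE _ a haE) (hTE _ _ (hTE _ a haE))]
      congr 1
      exact Subtype.ext (T_pow_succ hF i a)
  have hcM : (mp F hm)^[p ^ m] c = c := by
    have h1 : ∑ i ∈ Finset.range (p ^ m), (⟨T hF (φ ^ i) a, hTE _ a haE⟩ : E) = 0 := by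
      apply Subtype.ext
      rw [AddSubmonoidClass.coe_finsetSum]
      exact hsum
    have h2 := congrArg red h1
    rw [map_sum, map_zero, Finset.sum_congr rfl (fun i _ => hit i), ← hc] at h2
    have h3 : ∀ i : ℕ, (mp F hm)^[i] (mp F hm c - c) =
        (mp F hm)^[i + 1] c - (mp F hm)^[i] c := by
      intro i
      rw [Function.iterate_succ_apply]
      exact iterate_map_sub (mp F hm) i _ _
    rw [Finset.sum_congr rfl (fun i _ => h3 i), Finset.sum_range_sub (fun i => (mp F hm)^[i] c),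
      Function.iterate_zero_apply] at h2
    exact sub_eq_zero.1 h2
  -- a fixed point with the reduction `c`
  obtain ⟨R0, hR0F, hR0E, hR0⟩ : ∃ (R0 : Pt (gn V')) (_ : R0 ∈ Fix hF N) (h : R0 ∈ E),
      red ⟨R0, h⟩ = c := by
    rcases pt_cases c with rfl | ⟨x, y, g, rfl⟩
    · exact ⟨0, (Fix hF N).zero_mem, E.zero_mem, map_zero red⟩
    obtain ⟨x, rfl⟩ := residue_surjective x
    obtain ⟨y, rfl⟩ := residue_surjective y
    obtain ⟨g', hg'⟩ := iter_pt hFr hm g (p ^ m)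
    rw [hcM] at hg'
    obtain ⟨ex, ey⟩ := pt_inj hg'
    rw [← map_pow, residue_eq, norm_sub_rev] at ex ey
    obtain ⟨g1, g2⟩ := (ns_res na V' x y).1 g
    obtain ⟨x', y', hn, hx', hy', hf⟩ := hHE Ω G N φ p m Q hS (gn V') hV hF x y x.2 y.2 ex ey g1 g2
    have hxm : x' ∈ OO na := le_of_sub na x.2 hx'
    have hym : y' ∈ OO na := le_of_sub na y.2 hy'
    have rx : residue (OO na) ⟨x', hxm⟩ = residue _ x := (residue_eq na _ _).2 hx'
    have ry : residue (OO na) ⟨y', hym⟩ = residue _ y := (residue_eq na _ _).2 hy'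
    have hE' : pt hn ∈ E := (hE.mem x' y' hn).2 (Or.inr ⟨⟨x', hxm⟩, ⟨y', hym⟩, rfl, rfl, by
      rw [rx, ry]
      exact g⟩)
    obtain ⟨g3, hg3⟩ := hE.some ⟨x', hxm⟩ ⟨y', hym⟩ hn hE'
    exact ⟨pt hn, (pt_mem_Fix hF N hn).2 hf, hE', hg3.trans (pt_congr _ _ rx ry)⟩
  -- the difference
  obtain ⟨b, hb⟩ : ∃ b : Pt (gn V'), b = a - (T hF φ R0 - R0) := ⟨_, rfl⟩
  have hbF : b ∈ Fix hF N := by
    rw [hb]
    exact AddSubgroup.sub_mem _ haF (AddSubgroup.sub_mem _ (Fix_T hF hS.nor φ hR0F) hR0F)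
  have hbE : b ∈ E := by
    rw [hb]
    exact E.sub_mem haE (E.sub_mem (hTE φ R0 hR0E) hR0E)
  have hbr : red ⟨b, hbE⟩ = 0 := by
    have e : (⟨b, hbE⟩ : E) = ⟨a, haE⟩ - (⟨T hF φ R0, hTE φ R0 hR0E⟩ - ⟨R0, hR0E⟩) :=
      Subtype.ext hb
    rw [e, map_sub, map_sub, red_T na hS hF hFr hm hE hR0F hR0E, hR0, hc, sub_self]
  have hbB : Big 1 b := by
    intro x y h e
    by_contra hx
    rw [not_lt] at hx
    have hxm : x ∈ OO na := hx
    have hym : y ∈ OO na := P8H92.UL.y_mem h.1 hxm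
    subst e
    obtain ⟨g, hg⟩ := hE.some ⟨x, hxm⟩ ⟨y, hym⟩ h hbE
    exact pt_ne g (hg.symm.trans hbr)
  have hbs : ∑ i ∈ Finset.range (p ^ m), T hF (φ ^ i) b = 0 := by
    have h1 : ∀ i : ℕ, T hF (φ ^ i) b =
        T hF (φ ^ i) a - (T hF (φ ^ (i + 1)) R0 - T hF (φ ^ i) R0) := by
      intro i
      rw [hb, map_sub, map_sub, T_pow_succ']
    rw [Finset.sum_congr rfl (fun i _ => h1 i), Finset.sum_sub_distrib, hsum,
      Finset.sum_range_sub (fun i => T hF (φ ^ i) R0), hR0F _ hS.phiM, pow_zero, T_one, sub_self,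
      sub_self]
  obtain ⟨R1, hR1F, hR1B, hR1⟩ := hEH Ω G N φ p m Q hS (gn V') hV hF b hbF hbB hbs
  refine ⟨R0 + R1, AddSubgroup.add_mem _ hR0F hR1F, ?_, ?_⟩
  · rw [← mem_iff na hE]
    exact E.add_mem hR0E ((mem_iff na hE R1).2 (P8H72.UL.ns_of_big hR1B))
  · rw [map_add]
    have : T hF φ R0 + T hF φ R1 - (R0 + R1) = (T hF φ R0 - R0) + (T hF φ R1 - R1) := by abel
    rw [this, hR1, hb]
    abel

end Pool.Agent.P8H57.UL
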