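import Pool.Agent.P8H57.UL.CO
import Pool.Agent.P8H17.UL.Vec

/-!
# Project UL: the first cohomology group of the points with nonsingular reduction is zero
(vector form, COg)
-/

set_option autoImplicit false

open WeierstrassCurve IsLocalRing

namespace Pool.Agent.P8H57.UL

open Pool.Agent.P8H17.UL

section op

variable {B : Type} [AddCommGroup B] (f : AddMonoid.End B) {g : ℕ}

/-- the twisted iterates of an endomorphism -/
def op (A : Matrix (Fin g) (Fin g) ℤ) (i : ℕ) : (Fin g → B) →+ (Fin g → B) where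
  toFun c k := ∑ j, A k j • (f ^ i) (c j)
  map_zero' := by funext k; simp
  map_add' P Q := by funext k; simp [Finset.sum_add_distrib]

lemma op_apply (A : Matrix (Fin g) (Fin g) ℤ) (i : ℕ) (c : Fin g → B) (k : Fin g) :
    op f A i c k = ∑ j, A k j • (f ^ i) (c j) := rfl

lemma op_mul (A A' : Matrix (Fin g) (Fin g) ℤ) (i j : ℕ) (c : Fin g → B) :
    op f (A * A') (i + j) c = op f A i (op f A' j c) := by
  funext k
  simp only [op_apply, map_sum, map_zsmul, pow_add, AddMonoid.End.coe_mul, Function.comp_apply]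
  simp_rw [Matrix.mul_apply, Finset.sum_smul, Finset.smul_sum, mul_smul]
  exact Finset.sum_comm

lemma op_one (i : ℕ) (c : Fin g → B) (k : Fin g) : op f 1 i c k = (f ^ i) (c k) := by
  rw [op_apply]
  simp [Matrix.one_apply]

lemma op_zero (c : Fin g → B) : op f 1 0 c = c := by
  funext k
  rw [op_one, pow_zero]
  rfl

lemma op_step (A : Matrix (Fin g) (Fin g) ℤ) (k : ℕ) (c : Fin g → B) :
    op f A 1 (op f (A ^ k) k c) = op f (A ^ (k + 1)) (k + 1) c := by
  rw [← op_mul, pow_succ', add_comm 1 k]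

lemma op_step' (A : Matrix (Fin g) (Fin g) ℤ) (k : ℕ) (c : Fin g → B) :
    op f (A ^ k) k (op f A 1 c) = op f (A ^ (k + 1)) (k + 1) c := by
  rw [← op_mul, pow_succ]

/-- the solution of the twisted equation -/
lemma op_solve {A : Matrix (Fin g) (Fin g) ℤ} {M : ℕ} (hA : A ^ M = 1) (d r : Fin g → B)
    (hd : ∀ i, (f ^ M) (d i) - d i = r i) (c : Fin g → B)
    (hc : c = ∑ k ∈ Finset.range M, op f (A ^ k) k d) : op f A 1 c - c = r := by
  rw [hc, map_sum, ← Finset.sum_sub_distrib, Finset.sum_congr rfl fun k _ => by rw [op_step],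
    Finset.sum_range_sub (fun k => op f (A ^ k) k d), hA, pow_zero, op_zero]
  funext i
  rw [Pi.sub_apply, op_one, hd]

/-- the iterates of the solution -/
lemma op_fix {A : Matrix (Fin g) (Fin g) ℤ} {M : ℕ} (hA : A ^ M = 1) (r c : Fin g → B)
    (hc : op f A 1 c - c = r) (hr : ∑ k ∈ Finset.range M, op f (A ^ k) k r = 0) (i : Fin g) :
    (f ^ M) (c i) = c i := by
  rw [← hc, Finset.sum_congr rfl fun k _ => by rw [map_sub, op_step'],
    Finset.sum_range_sub (fun k => op f (A ^ k) k c), hA, pow_zero, op_zero] at hr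
  have h := congrFun hr i
  rw [Pi.sub_apply, op_one] at h
  exact sub_eq_zero.1 h

end op

section twl

variable {Ω : Type} [NormedField Ω] {V : WeierstrassCurve Ω} {G : Subgroup (RingAut Ω)}
  {N : Subgroup G} {φ : G} {g : ℕ}

lemma Fix_tw (hF : FixW V G) (hN : N.Normal) (A : Matrix (Fin g) (Fin g) ℤ) (τ : G)
    {P : Fin g → Pt V} (hP : ∀ i, P i ∈ Fix hF N) (i : Fin g) : tw hF A τ P i ∈ Fix hF N := by
  rw [tw_apply]
  exact AddSubgroup.sum_mem _ fun j _ => AddSubgroup.zsmul_mem _ (Fix_T hF hN τ (hP j)) _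

lemma tw_step' (hF : FixW V G) (A : Matrix (Fin g) (Fin g) ℤ) (i : ℕ) (P : Fin g → Pt V) :
    tw hF (A ^ i) (φ ^ i) (tw hF A φ P) = tw hF (A ^ (i + 1)) (φ ^ (i + 1)) P := by
  rw [← tw_mul, ← pow_succ, ← pow_succ]

lemma tw_zero (hF : FixW V G) (A : Matrix (Fin g) (Fin g) ℤ) (P : Fin g → Pt V) :
    tw hF (A ^ 0) (φ ^ 0) P = P := by
  funext i
  rw [pow_zero, pow_zero, tw_one, T_one]

/-- a telescoping sum -/
lemma norm_bd (hF : FixW V G) (A : Matrix (Fin g) (Fin g) ℤ) (M : ℕ) (P : Fin g → Pt V) :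
    ∑ k ∈ Finset.range M, tw hF (A ^ k) (φ ^ k) (tw hF A φ P - P) =
      tw hF (A ^ M) (φ ^ M) P - P := by
  rw [Finset.sum_congr rfl fun k _ => by rw [map_sub, tw_step'],
    Finset.sum_range_sub (fun k => tw hF (A ^ k) (φ ^ k) P), tw_zero]

end twl

/-- the power map on the points as an endomorphism -/
noncomputable def fr {κ : Type} [Field κ] (F : κ →+* κ) {W : WeierstrassCurve κ}
    (hm : W.map F = W) : AddMonoid.End (Pt W) := mp F hm

lemma fr_pow {κ : Type} [Field κ] (F : κ →+* κ) {W : WeierstrassCurve κ}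
    (hm : W.map F = W) (k : ℕ) (P : Pt W) : (fr F hm ^ k) P = (mp F hm)^[k] P := by
  rw [AddMonoid.End.coe_pow]
  rfl

section cog

variable {Ω : Type} [NormedField Ω] (na : ∀ x y : Ω, ‖x + y‖ ≤ max ‖x‖ ‖y‖)
  {G : Subgroup (RingAut Ω)} {N : Subgroup G} {φ : G} {p m Q : ℕ}

/-- the reduction of the image under the powers of `φ` -/
lemma red_iter (hS : Sit G N φ p m Q) {V' : WeierstrassCurve (OO na)} (hF : FixW (gn V') G)
    {F : ResidueField (OO na) →+* ResidueField (OO na)} (hFr : ∀ x, F x = x ^ Q)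
    (hm : (sp V').map F = sp V') {E : AddSubgroup (Pt (gn V'))}
    {red : E →+ Pt (sp V')} (hE : IsRed V' E red)
    (hTE : ∀ (τ : G) (P : Pt (gn V')), P ∈ E → T hF τ P ∈ E) {P : Pt (gn V')}
    (hP : P ∈ Fix hF N) (h1 : P ∈ E) (k : ℕ) :
    red ⟨T hF (φ ^ k) P, hTE _ P h1⟩ = (fr F hm ^ k) (red ⟨P, h1⟩) := by
  rw [fr_pow]
  induction k with
  | zero =>
    rw [Function.iterate_zero_apply]
    congr 1
    exact Subtype.ext (by rw [pow_zero]; exact T_one hF P)
  | succ i ih =>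
    rw [Function.iterate_succ_apply', ← ih]
    have h := red_T na hS hF hFr hm hE (Fix_T hF hS.nor (φ ^ i) hP)
      (hTE _ P h1) (hTE _ _ (hTE _ P h1))
    refine Eq.trans ?_ h
    congr 1
    exact Subtype.ext (T_pow_succ hF i P)

/-- the reduction of the twisted image -/
lemma red_tw (hS : Sit G N φ p m Q) {V' : WeierstrassCurve (OO na)} (hF : FixW (gn V') G)
    {F : ResidueField (OO na) →+* ResidueField (OO na)} (hFr : ∀ x, F x = x ^ Q)
    (hm : (sp V').map F = sp V') {E : AddSubgroup (Pt (gn V'))}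
    {red : E →+ Pt (sp V')} (hE : IsRed V' E red)
    (hTE : ∀ (τ : G) (P : Pt (gn V')), P ∈ E → T hF τ P ∈ E) {g : ℕ} {P : Fin g → Pt (gn V')}
    (hP : ∀ i, P i ∈ Fix hF N) (h1 : ∀ i, P i ∈ E) (A : Matrix (Fin g) (Fin g) ℤ) (k : ℕ)
    (i : Fin g) (h2 : tw hF A (φ ^ k) P i ∈ E) :
    red ⟨tw hF A (φ ^ k) P i, h2⟩ =
      op (fr F hm) A k (fun i => red ⟨P i, h1 i⟩) i := by
  rw [op_apply]
  have e : (⟨tw hF A (φ ^ k) P i, h2⟩ : E) =
      ∑ j, A i j • (⟨T hF (φ ^ k) (P j), hTE _ _ (h1 j)⟩ : E) := by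
    apply Subtype.ext
    rw [AddSubmonoidClass.coe_finsetSum]
    simp only [AddSubgroup.coe_zsmul]
    rfl
  rw [e, map_sum]
  refine Finset.sum_congr rfl fun j _ => ?_
  rw [map_zsmul, red_iter na hS hF hFr hm hE hTE (hP j) (h1 j)]

/-- lifting of the points of the reduction over the field with `Q ^ (p ^ m)` elements -/
lemma lift_pt [IsAlgClosed Ω] [CharZero Ω] (hHE : S_HE) (hS : Sit G N φ p m Q)
    {V' : WeierstrassCurve (OO na)} (hV : IntW (gn V')) (hF : FixW (gn V') G)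
    {F : ResidueField (OO na) →+* ResidueField (OO na)} (hFr : ∀ x, F x = x ^ Q)
    (hm : (sp V').map F = sp V') {E : AddSubgroup (Pt (gn V'))}
    {red : E →+ Pt (sp V')} (hE : IsRed V' E red) (c : Pt (sp V'))
    (hc : (mp F hm)^[p ^ m] c = c) :
    ∃ (R0 : Pt (gn V')) (_ : R0 ∈ Fix hF N) (h : R0 ∈ E), red ⟨R0, h⟩ = c := by
  rcases pt_cases c with rfl | ⟨x, y, g, rfl⟩
  · exact ⟨0, (Fix hF N).zero_mem, E.zero_mem, map_zero red⟩
  obtain ⟨x, rfl⟩ := residue_surjective x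
  obtain ⟨y, rfl⟩ := residue_surjective y
  obtain ⟨g', hg'⟩ := iter_pt hFr hm g (p ^ m)
  rw [hc] at hg'
  obtain ⟨ex, ey⟩ := pt_inj hg'
  rw [← map_pow, residue_eq, norm_sub_rev] at ex ey
  obtain ⟨g1, g2⟩ := (ns_res na V' x y).1 g
  obtain ⟨x', y', hn, hx', hy', hf⟩ := hHE Ω G N φ p m Q hS (gn V') hV hF x y x.2 y.2 ex ey g1 g2
  have hxm : x' ∈ OO na := le_of_sub na x.2 hx'
  have hym : y' ∈ OO na := le_of_sub na y.2 hy'
  have rx : residue (OO na) ⟨x', hxm⟩ = residue _ x := (residue_eq na _ _).2 hx'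
  have ry : residue (OO na) ⟨y', hym⟩ = residue _ y := (residue_eq na _ _).2 hy'
  have hE' : pt hn ∈ E := (hE.mem x' y' hn).2 (Or.inr ⟨⟨x', hxm⟩, ⟨y', hym⟩, rfl, rfl, by
    rw [rx, ry]
    exact g⟩)
  obtain ⟨g3, hg3⟩ := hE.some ⟨x', hxm⟩ ⟨y', hym⟩ hn hE'
  exact ⟨pt hn, (pt_mem_Fix hF N hn).2 hf, hE', hg3.trans (pt_congr _ _ rx ry)⟩

/-- Lang's theorem for a power of the Frobenius map -/
lemma lang_pow [IsAlgClosed (ResidueField (OO na))] (hLB : S_LB) (hS : Sit G N φ p m Q)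
    {V' : WeierstrassCurve (OO na)} (hF : FixW (gn V') G)
    {F : ResidueField (OO na) →+* ResidueField (OO na)} (hFr : ∀ x, F x = x ^ Q)
    (hm : (sp V').map F = sp V') (r : Pt (sp V')) :
    ∃ d : Pt (sp V'), (fr F hm ^ p ^ m) d - d = r := by
  obtain ⟨F', hF'⟩ : ∃ F' : ResidueField (OO na) →+* ResidueField (OO na),
      ∀ x, F' x = x ^ Q ^ p ^ m := by
    apply exists_frob
    obtain ⟨l, f, hl, hQ, hn⟩ := hS.resc
    exact ⟨l, f * p ^ m, hl, by rw [hQ, ← pow_mul], hn⟩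
  have hm' : (sp V').map F' = sp V' := by
    have key : ∀ a : OO na, (∀ τ : G, ap τ (a : Ω) = a) → F' (residue _ a) = residue _ a := by
      intro a ha
      rw [hF']
      exact residue_fix na hS a (fun σ _ => ha σ)
    have hf : ∀ τ : G, (gn V').map (ap τ) = gn V' := fun τ => hF τ τ.2
    ext
    · exact key V'.a₁ fun τ => congrArg WeierstrassCurve.a₁ (hf τ)
    · exact key V'.a₂ fun τ => congrArg WeierstrassCurve.a₂ (hf τ)
    · exact key V'.a₃ fun τ => congrArg WeierstrassCurve.a₃ (hf τ)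
    · exact key V'.a₄ fun τ => congrArg WeierstrassCurve.a₄ (hf τ)
    · exact key V'.a₆ fun τ => congrArg WeierstrassCurve.a₆ (hf τ)
  have hQ1 : 1 < Q ^ p ^ m := Nat.one_lt_pow (Mpos hS).ne' hS.Q2
  obtain ⟨d, hd⟩ := hLB (ResidueField (OO na)) (Q ^ p ^ m) hQ1 F' hF' (sp V') hm' r
  refine ⟨d, ?_⟩
  rw [← hd, fr_pow]
  congr 1
  rcases pt_cases d with rfl | ⟨x, y, g, rfl⟩
  · rw [map_zero]
    exact iterate_map_zero (mp F hm) _
  · obtain ⟨g', hg'⟩ := iter_pt hFr hm g (p ^ m)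
    rw [mp_pt]
    refine hg'.trans (pt_congr _ _ (hF' _).symm (hF' _).symm)

end cog

/-- the first cohomology group of the points with nonsingular reduction is zero, vector form -/
theorem cog (hRD : S_RD) (hLB : S_LB) (hHE : S_HE) (hEH : S_EHg) : S_COg := by
  intro Ω _ _ _ G N φ p m Q hS V hV hF g A hA a ha hsum
  have na := hS.na
  obtain ⟨V', rfl⟩ : ∃ V' : WeierstrassCurve (OO na), gn V' = V := ⟨VO na hV, rfl⟩
  obtain ⟨E, red, hE⟩ := hRD Ω (OO na) V'
  obtain ⟨F, hFr⟩ := exists_frob na hS.resc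
  have hm := sp_map na hS hF hFr
  have hcl : IsAlgClosed (ResidueField (OO na)) := res_algClosed (OO na)
  have hTE : ∀ (τ : G) (P : Pt (gn V')), P ∈ E → T hF τ P ∈ E := fun τ P hP =>
    (mem_iff na hE _).2 (P8H72.UL.ns_T hF hS.iso τ ((mem_iff na hE P).1 hP))
  have htwE : ∀ (B : Matrix (Fin g) (Fin g) ℤ) (τ : G) (P : Fin g → Pt (gn V')),
      (∀ i, P i ∈ E) → ∀ i, tw hF B τ P i ∈ E := by
    intro B τ P hP i
    rw [tw_apply]
    exact E.sum_mem fun j _ => E.zsmul_mem (hTE τ _ (hP j)) _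
  have haF : ∀ i, a i ∈ Fix hF N := fun i => (ha i).1
  have haE : ∀ i, a i ∈ E := fun i => (mem_iff na hE _).2 (ha i).2
  have hlang := fun i => lang_pow na hLB hS hF hFr hm (red ⟨a i, haE i⟩)
  choose d hd using hlang
  obtain ⟨c, hc⟩ : ∃ c : Fin g → Pt (sp V'), c = ∑ k ∈ Finset.range (p ^ m),
    op (fr F hm) (A ^ k) k d := ⟨_, rfl⟩
  have hc1 := op_solve (fr F hm) hA d _ hd c hc
  have hsumr : ∑ k ∈ Finset.range (p ^ m),
      op (fr F hm) (A ^ k) k (fun i => red ⟨a i, haE i⟩) = 0 := by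
    funext i
    rw [Finset.sum_apply, Pi.zero_apply]
    have h1 : ∑ k ∈ Finset.range (p ^ m),
        (⟨tw hF (A ^ k) (φ ^ k) a i, htwE _ _ a haE i⟩ : E) = 0 := by
      apply Subtype.ext
      rw [AddSubmonoidClass.coe_finsetSum]
      have := congrFun hsum i
      rw [Finset.sum_apply] at this
      exact this
    have h2 := congrArg red h1
    rw [map_sum, map_zero] at h2
    rw [← h2]
    exact Finset.sum_congr rfl fun k _ => (red_tw na hS hF hFr hm hE hTE haF haE _ k i _).symm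
  have hcf := op_fix (fr F hm) hA _ c hc1 hsumr
  have hlift : ∀ i, ∃ (R0 : Pt (gn V')) (_ : R0 ∈ Fix hF N) (h : R0 ∈ E), red ⟨R0, h⟩ = c i := by
    intro i
    apply lift_pt na hHE hS hV hF hFr hm hE
    have h := hcf i
    rw [fr_pow] at h
    exact h
  choose R0 hR0F hR0E hR0 using hlift
  -- the difference
  obtain ⟨b, hb⟩ : ∃ b : Fin g → Pt (gn V'), b = a - (tw hF A φ R0 - R0) := ⟨_, rfl⟩
  have hbi : ∀ i, b i = a i - (tw hF A φ R0 i - R0 i) := fun i => by rw [hb]; rfl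
  have hbF : ∀ i, b i ∈ Fix hF N := by
    intro i
    rw [hbi]
    exact AddSubgroup.sub_mem _ (haF i)
      (AddSubgroup.sub_mem _ (Fix_tw hF hS.nor A φ hR0F i) (hR0F i))
  have hbE : ∀ i, b i ∈ E := by
    intro i
    rw [hbi]
    exact E.sub_mem (haE i) (E.sub_mem (htwE A φ R0 hR0E i) (hR0E i))
  have hbr : ∀ i, red ⟨b i, hbE i⟩ = 0 := by
    intro i
    have e : (⟨b i, hbE i⟩ : E) =
        ⟨a i, haE i⟩ - (⟨tw hF A φ R0 i, htwE A φ R0 hR0E i⟩ - ⟨R0 i, hR0E i⟩) :=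
      Subtype.ext (hbi i)
    have h1 : red ⟨tw hF A φ R0 i, htwE A φ R0 hR0E i⟩ =
        op (fr F hm) A 1 c i := by
      have h2 := red_tw na hS hF hFr hm hE hTE hR0F hR0E A 1 i
        (by rw [pow_one]; exact htwE A φ R0 hR0E i)
      have h3 : (fun i => red ⟨R0 i, hR0E i⟩) = c := funext hR0
      rw [h3] at h2
      rw [← h2]
      congr 1
    have h4 := congrFun hc1 i
    rw [Pi.sub_apply] at h4
    rw [e, map_sub, map_sub, h1, hR0, h4, sub_self]
  have hbB : ∀ i, Big 1 (b i) := by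
    intro i x y h e
    by_contra hx
    rw [not_lt] at hx
    have hxm : x ∈ OO na := hx
    have hym : y ∈ OO na := P8H92.UL.y_mem h.1 hxm
    have hpE : pt h ∈ E := by rw [← e]; exact hbE i
    obtain ⟨g, hg⟩ := hE.some ⟨x, hxm⟩ ⟨y, hym⟩ h hpE
    apply pt_ne g
    rw [← hg, ← hbr i]
    congr 1
    exact Subtype.ext e.symm
  have hbs : ∑ k ∈ Finset.range (p ^ m), tw hF (A ^ k) (φ ^ k) b = 0 := by
    have h1 : tw hF (A ^ p ^ m) (φ ^ p ^ m) R0 = R0 := by
      funext i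
      rw [hA, tw_one]
      exact hR0F i _ hS.phiM
    rw [hb, Finset.sum_congr rfl fun k _ => by rw [map_sub], Finset.sum_sub_distrib, hsum, norm_bd,
      h1, sub_self, sub_self]
  obtain ⟨R1, hR1, hR1b⟩ := hEH Ω G N φ p m Q hS (gn V') hV hF g A hA b
    (fun i => ⟨hbF i, hbB i⟩) hbs
  refine ⟨R0 + R1, fun i => ⟨AddSubgroup.add_mem _ (hR0F i) (hR1 i).1, ?_⟩, ?_⟩
  · rw [← mem_iff na hE]
    exact E.add_mem (hR0E i) ((mem_iff na hE _).2 (P8H72.UL.ns_of_big (hR1 i).2))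
  · rw [map_add]
    have : tw hF A φ R0 + tw hF A φ R1 - (R0 + R1) =
      (tw hF A φ R0 - R0) + (tw hF A φ R1 - R1) := by abel
    rw [this, hR1b, hb]
    abel

end Pool.Agent.P8H57.UL
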