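import Pool.Agent.P8H57.UL.Base

/-!
# Project UL: changes of variables between integral equations (IR)
-/

set_option autoImplicit false

open WeierstrassCurve IsLocalRing

namespace Pool.Agent.P8H57.UL

open Pool.Agent.P8H17.UL

section ir

variable {Ω : Type} [NormedField Ω] (na : ∀ x y : Ω, ‖x + y‖ ≤ max ‖x‖ ‖y‖)

include na

lemma int_b₂ {V : WeierstrassCurve Ω} (hV : IntW V) : ‖V.b₂‖ ≤ 1 := by
  have h := (VO na hV).b₂.2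
  exact h

lemma int_b₄ {V : WeierstrassCurve Ω} (hV : IntW V) : ‖V.b₄‖ ≤ 1 := by
  have h := (VO na hV).b₄.2
  exact h

lemma int_b₆ {V : WeierstrassCurve Ω} (hV : IntW V) : ‖V.b₆‖ ≤ 1 := by
  have h := (VO na hV).b₆.2
  exact h

lemma int_b₈ {V : WeierstrassCurve Ω} (hV : IntW V) : ‖V.b₈‖ ≤ 1 := by
  have h := (VO na hV).b₈.2
  exact h

lemma nat_le (n : ℕ) : ‖(n : Ω)‖ ≤ 1 := natCast_mem (OO na) n

/-- roots of monic quadratic polynomials with integral coefficients -/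
lemma quad {a b x : Ω} (ha : ‖a‖ ≤ 1) (hb : ‖b‖ ≤ 1) (h : x ^ 2 + a * x = b) : ‖x‖ ≤ 1 := by
  by_contra hx
  rw [not_le] at hx
  have h1 : ‖x ^ 2‖ ≤ max ‖b‖ ‖a * x‖ := by
    have := na_sub na (x ^ 2 + a * x) (a * x)
    rw [add_sub_cancel_right, h] at this
    exact this
  rw [norm_pow, norm_mul] at h1
  have h2 : ‖a‖ * ‖x‖ ≤ ‖x‖ := by
    calc ‖a‖ * ‖x‖ ≤ 1 * ‖x‖ := mul_le_mul_of_nonneg_right ha (norm_nonneg _)
      _ = ‖x‖ := one_mul _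
  have h3 : ‖x‖ ^ 2 ≤ ‖x‖ := le_trans h1 (max_le (le_trans hb hx.le) h2)
  nlinarith

end ir

theorem ir : S_IR := by
  intro Ω _ na V C hV hC hu
  have hui : ‖((C.u⁻¹ : Ωˣ) : Ω)‖ = 1 := by
    rw [Units.val_inv_eq_inv_val, norm_inv, hu, inv_one]
  have hup : ∀ n : ℕ, ‖((C.u⁻¹ : Ωˣ) : Ω) ^ n‖ = 1 := fun n => by rw [norm_pow, hui, one_pow]
  have hb6 : ‖V.b₆ + 2 * C.r * V.b₄ + C.r ^ 2 * V.b₂ + 4 * C.r ^ 3‖ ≤ 1 := by
    have h := int_b₆ na hC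
    rwa [variableChange_b₆, norm_mul, hup, one_mul] at h
  have hb8 : ‖V.b₈ + 3 * C.r * V.b₆ + 3 * C.r ^ 2 * V.b₄ + C.r ^ 3 * V.b₂ + 3 * C.r ^ 4‖ ≤ 1 := by
    have h := int_b₈ na hC
    rwa [variableChange_b₈, norm_mul, hup, one_mul] at h
  have h2 := int_b₂ na hV
  have h4 := int_b₄ na hV
  have h6 := int_b₆ na hV
  have h8 := int_b₈ na hV
  have hr : ‖C.r‖ ≤ 1 := by
    by_contra hr
    rw [not_le] at hr
    set r := C.r with hrdef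
    have hr0 : 0 < ‖r‖ := lt_trans one_pos hr
    have hn3 : ‖(3 : Ω)‖ ≤ 1 := by exact_mod_cast nat_le na 3
    have hn2 : ‖(2 : Ω)‖ ≤ 1 := by exact_mod_cast nat_le na 2
    have e1 : (1 : ℝ) ≤ ‖r‖ ^ 2 := one_le_pow₀ hr.le
    have e2 : ‖r‖ ≤ ‖r‖ ^ 2 := by nlinarith
    have e3 : ‖r‖ ^ 2 ≤ ‖r‖ ^ 3 := by nlinarith [sq_nonneg ‖r‖]
    have k4 : ‖(4 : Ω) * r ^ 3‖ ≤ ‖r‖ ^ 2 := by
      have : (4 : Ω) * r ^ 3 = (V.b₆ + 2 * r * V.b₄ + r ^ 2 * V.b₂ + 4 * r ^ 3) -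
          (V.b₆ + 2 * r * V.b₄ + r ^ 2 * V.b₂) := by ring
      rw [this]
      apply (BB na (‖r‖ ^ 2) (by positivity)).sub_mem
      · exact le_trans hb6 e1
      · refine AddSubgroup.add_mem _ (AddSubgroup.add_mem _ ?_ ?_) ?_
        · exact le_trans h6 e1
        · rw [mem_BB, norm_mul, norm_mul]
          calc ‖(2 : Ω)‖ * ‖r‖ * ‖V.b₄‖ ≤ 1 * ‖r‖ * 1 := by gcongr
            _ ≤ ‖r‖ ^ 2 := by linarith
        · rw [mem_BB, norm_mul, norm_pow]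
          calc ‖r‖ ^ 2 * ‖V.b₂‖ ≤ ‖r‖ ^ 2 * 1 := by gcongr
            _ = ‖r‖ ^ 2 := mul_one _
    have k3 : ‖(3 : Ω) * r ^ 4‖ ≤ ‖r‖ ^ 3 := by
      have : (3 : Ω) * r ^ 4 = (V.b₈ + 3 * r * V.b₆ + 3 * r ^ 2 * V.b₄ + r ^ 3 * V.b₂ + 3 * r ^ 4) -
          (V.b₈ + 3 * r * V.b₆ + 3 * r ^ 2 * V.b₄ + r ^ 3 * V.b₂) := by ring
      rw [this]
      apply (BB na (‖r‖ ^ 3) (by positivity)).sub_mem
      · exact le_trans hb8 (le_trans e1 e3)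
      · refine AddSubgroup.add_mem _ (AddSubgroup.add_mem _ (AddSubgroup.add_mem _ ?_ ?_) ?_) ?_
        · exact le_trans h8 (le_trans e1 e3)
        · rw [mem_BB, norm_mul, norm_mul]
          calc ‖(3 : Ω)‖ * ‖r‖ * ‖V.b₆‖ ≤ 1 * ‖r‖ * 1 := by gcongr
            _ ≤ ‖r‖ ^ 3 := by linarith
        · rw [mem_BB, norm_mul, norm_mul, norm_pow]
          calc ‖(3 : Ω)‖ * ‖r‖ ^ 2 * ‖V.b₄‖ ≤ 1 * ‖r‖ ^ 2 * 1 := by gcongr
            _ ≤ ‖r‖ ^ 3 := by linarith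
        · rw [mem_BB, norm_mul, norm_pow]
          calc ‖r‖ ^ 3 * ‖V.b₂‖ ≤ ‖r‖ ^ 3 * 1 := by gcongr
            _ = ‖r‖ ^ 3 := mul_one _
    have l4 : ‖(4 : Ω) * r‖ ≤ 1 := by
      have : ‖(4 : Ω) * r ^ 3‖ = ‖(4 : Ω) * r‖ * ‖r‖ ^ 2 := by
        rw [← norm_pow, ← norm_mul]; congr 1; ring
      rw [this] at k4
      exact le_of_mul_le_mul_right (by linarith) (show 0 < ‖r‖ ^ 2 by positivity)
    have l3 : ‖(3 : Ω) * r‖ ≤ 1 := by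
      have : ‖(3 : Ω) * r ^ 4‖ = ‖(3 : Ω) * r‖ * ‖r‖ ^ 3 := by
        rw [← norm_pow, ← norm_mul]; congr 1; ring
      rw [this] at k3
      exact le_of_mul_le_mul_right (by linarith) (show 0 < ‖r‖ ^ 3 by positivity)
    have : r = 4 * r - 3 * r := by ring
    have hh := na_sub na (4 * r) (3 * r)
    rw [← this] at hh
    exact absurd (le_trans hh (max_le l4 l3)) (not_le.2 hr)
  have n3 : ‖(3 : Ω)‖ ≤ 1 := by exact_mod_cast nat_le na 3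
  refine ⟨hr, ?_, ?_⟩
  · have ha2 : ‖V.a₂ - C.s * V.a₁ + 3 * C.r - C.s ^ 2‖ ≤ 1 := by
      have h := hC.h2
      rwa [variableChange_a₂, norm_mul, hup, one_mul] at h
    refine quad na (a := V.a₁) (b := (V.a₂ + 3 * C.r) - (V.a₂ - C.s * V.a₁ + 3 * C.r - C.s ^ 2))
      hV.h1 ?_ (by ring)
    exact (OO na).sub_mem ((OO na).add_mem _ _ hV.h2 ((OO na).mul_mem _ _ n3 hr)) ha2
  · have ha6 : ‖V.a₆ + C.r * V.a₄ + C.r ^ 2 * V.a₂ + C.r ^ 3 - C.t * V.a₃ - C.t ^ 2 -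
        C.r * C.t * V.a₁‖ ≤ 1 := by
      have h := hC.h6
      rwa [variableChange_a₆, norm_mul, hup, one_mul] at h
    refine quad na (a := V.a₃ + C.r * V.a₁) (b := (V.a₆ + C.r * V.a₄ + C.r ^ 2 * V.a₂ + C.r ^ 3) -
      (V.a₆ + C.r * V.a₄ + C.r ^ 2 * V.a₂ + C.r ^ 3 - C.t * V.a₃ - C.t ^ 2 -
        C.r * C.t * V.a₁)) ?_ ?_ (by ring)
    · exact (OO na).add_mem _ _ hV.h3 ((OO na).mul_mem _ _ hr hV.h1)
    · have hr' : C.r ∈ OO na := hr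
      have h1' : V.a₄ ∈ OO na := hV.h4
      have h2' : V.a₂ ∈ OO na := hV.h2
      have h3' : V.a₆ ∈ OO na := hV.h6
      exact sub_mem (add_mem (add_mem (add_mem h3' (mul_mem hr' h1'))
        (mul_mem (pow_mem hr' 2) h2')) (pow_mem hr' 3)) ha6

end Pool.Agent.P8H57.UL
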